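import Pool.Agent.BP2.Limit
import Pool.Agent.BP2.M5.Machine
import Pool.Agent.BP2.S.Main

/-!
# MP_475aca_co : the burnt pancake number is asymptotic to `3 n / 2`

`BP.IsSP n a` : the list of integers `a` is a signed permutation of `[n]`, that is, the absolute
values of its entries are a rearrangement of `1, …, n`.
`BP.pflips ks a` : the list obtained from `a` by the flips of the lengths `ks` (in this order); the
flip of length `k` (`BP.pflip k`) reverses the first `k` entries and changes their signs.
`BP.ident n = (1, 2, …, n)`.
`BP.burntDist n a` : the least number of flips, each of a length between `1` and `n`, which turn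
`a` into `(1, 2, …, n)`.
`BP.burntNumber n` : the maximum of `BP.burntDist n a` over all signed permutations `a` of `[n]`;
this is `g(n)`.

`g(n) / n → 3 / 2`.
-/

theorem Pool.Agent.Results.MP_475aca_co.AsymptoticValue.result :
    Filter.Tendsto (fun n : ℕ => (BP.burntNumber n : ℝ) / n) Filter.atTop (nhds (3 / 2)) :=
  BP2.tendsto_of_goal (BP2.goal_of_parts BP2.structure_theorem BP2.machineTheorem)
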